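import Pool.Agent.Run7.h130.MT.Final

set_option autoImplicit false

/-!
# Discrete extensions of the billiard in a convex polygon: ergodicity in the class of the sets of
finite directional perimeter

Let `P` be a convex polygon, `F` a countable nonempty set (finite or infinite) and `σ i` an arbitrary
permutation of `F` for each side `i` of `P`. In the extension of the billiard flow by `F` a state is a
pair `(x, c)`, `x` a state (position, direction) of the billiard in `P` and `c ∈ F` a colour; free
motion keeps the colour, and a reflection in side `i` changes the colour `c` to `σ i c`. Examples:

* `F` a countable group, `σ i` the multiplication by an element `g i`: the colour is the product of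
  the elements `g i` of the sides which have been hit (for `F = ℤ ^ k` it counts the reflections in
  the sides). The `σ i` act transitively if and only if the `g i` generate the group.
* `σ i` involutions: the geodesic (billiard) flow on the flat surface `M` obtained from copies `P_c` of
  `P`, `c ∈ F`: side `i` of `P_c` is glued to side `i` of `P_{σ i c}`, so that the second copy is the mirror
  image of the first in this side, and this side remains a mirror if `σ i c = c`; the direction of motion
  is measured in the frame of each copy. So `M` is tiled by mirror images of `P`: the doubled
  polygon, polygons (also nonconvex ones) that can be folded onto `P` by reflections, compact flat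
  surfaces with conical points, infinite periodic billiard tables.

We consider sets `A` of coloured states which are invariant under this flow, have measurable sections
and have finite directional perimeter: turning the direction by an angle `h` changes the set of colours
`{c | (x, c) ∈ A}` only for the states `x` of a set of measure `O(h)`. (If `F` is finite this means that
each section `{x | (x, c) ∈ A}` has finite directional perimeter; if `F` is infinite it is so if the
perimeters of the sections have a finite sum.)

1. Up to null sets, each section of `A` depends only on the direction.
2. If some angle of `P` is not a rational multiple of `π`: up to null sets `A` is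
  (phase space) × `B` with a set `B` of colours that is invariant under all `σ i`.
3. All these sets `A` are null or conull if and only if some angle of `P` is not a rational multiple
  of `π` and the `σ i` act transitively on `F` (the only subsets of `F` invariant under all `σ i` are
  `∅` and `F`).

For `F` a point this is the starting result `FinitePerimeterErgodicity`. In 2. and 3. the class cannot
be replaced by that of the sets whose sections have finite perimeters: for the infinite surface
obtained by unfolding an irrational polygon the direction of motion is a constant of the motion.

Proof of 2. from 1.: let `Θ c` be the sets of directions which describe the sections. The family `Θ` is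
locally constant outside a finite set of jumps, because every jump contributes `h` to the measure of
the set of directions `θ` for which the family changes between `θ` and `θ + h`. The set of the jumps is
invariant under the reflections of the directions in the sides, although the permutation of the
colours depends on the side from which the direction meets the mirror (`σ i` or its inverse). The
reflections generate an infinite group with dense orbits, so there are no jumps.
-/

namespace Pool.Agent.Results.MP_7bc51d_an.DiscreteExtensions

open Pool.Agent.W780.PG MeasureTheory Run7.h130.MT

open Pool.Agent.W780.BB (phase)

open scoped Real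

theorem result {n : ℕ} {p : Fin (n + 3) → ℂ} (hp : IsConvexPolygon p) {F : Type} [Countable F]
    [Nonempty F] (σ : Fin (n + 3) → Equiv.Perm F) :
    (∀ A : Set ((ℂ × ℝ) × F), (∀ c, MeasurableSet {x | (x, c) ∈ A}) → IsInvariantF p σ A →
      FinitePerimeterF p A →
      ∃ Θ : F → Set ℝ, ∀ c, MeasurableSet (Θ c) ∧
        volume {x : ℂ × ℝ | x ∈ phase p ∧ ¬ ((x, c) ∈ A ↔ x.2 ∈ Θ c)} = 0) ∧
    ((∃ i, Irrational (ang p i / π)) →
      ∀ A : Set ((ℂ × ℝ) × F), (∀ c, MeasurableSet {x | (x, c) ∈ A}) → IsInvariantF p σ A →
      FinitePerimeterF p A →
      ∃ B : Set F, (∀ i c, σ i c ∈ B ↔ c ∈ B) ∧
        ∀ c, volume {x : ℂ × ℝ | x ∈ phase p ∧ ¬ ((x, c) ∈ A ↔ c ∈ B)} = 0) ∧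
    ((∀ A : Set ((ℂ × ℝ) × F), (∀ c, MeasurableSet {x | (x, c) ∈ A}) → IsInvariantF p σ A →
        FinitePerimeterF p A → IsTrivialF p A) ↔
      (∃ i, Irrational (ang p i / π)) ∧
        ∀ B : Set F, (∀ i c, σ i c ∈ B ↔ c ∈ B) → B = ∅ ∨ B = Set.univ) := by
  refine ⟨?_, ?_, criterion hp σ⟩
  · rintro A hA hI ⟨C, hC⟩
    choose Θ h1 _ h3 using directions hp hA (sections hI) hC
    exact ⟨Θ, fun c => ⟨h1 c, h3 c⟩⟩
  · rintro hirr A hA hI ⟨C, hC⟩
    exact product hp hirr hA (sections hI) hC

end Pool.Agent.Results.MP_7bc51d_an.DiscreteExtensions
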