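import Pool.Agent.Run7.h907.BL.FinC

set_option autoImplicit false

/-!
# Billiards in convex polygons: if there are many invariant sets, each position sees many of them

Let `P` be any convex polygon with `n + 3` sides.

* Sets. Let `A 1, …, A M` be disjoint invariant sets of the billiard flow of proportions `a j > 0`,
  and `A j z` the part of the directions at the position `z` which belong to `A j`. The mean over
  the positions `z` of the sum of `(A j z) ^ 2 / a j` is at most `(n + 1) (1 + log M)`. The trivial
  bound is `M`, attained by arbitrary sets if each position sees only one of them; if the densities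
  `A j z` do not depend on `z` and the sets fill the phase space, the value is `1`. So for `M`
  invariant sets of equal measure the mean of the sum of the squares of the densities is at most
  `(n + 1) (1 + log M) / M`: a typical position sees at least a constant times `M / log M` of them.
* Functions. For orthonormal bounded invariant functions `f 1, …, f M` and each Fourier mode `m` of
  the direction, the mean over the positions of the sum of the squares of the absolute values of the
  `m`-th coefficients is at most the sum of `1 / (2 [s / (n + 1)] + 1)` over `s < M`. So the
  singular values `σ j` of the map from invariant functions to their `m`-th modes satisfy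
  `∑ j < M, σ j ^ 2 ≤ (n + 1) (1 + log M)`.

Regularity of velocity averages (one half of a derivative) gives the order `M ^ (1 / 2)` for all
functions which are invariant under free motion; the law of reflection improves this to `log M`.

Proof. For an invariant function let `e m` be the energy of its `m`-th mode. The difference
`e (k - 1) - e (k + 1)` is a multiple of the signed area of a closed polygon with `n + 3` sides of
fixed directions, which depends linearly on the function. If all its sides but two vanish, its area is
zero: so `n + 1` linear conditions for each `k` imply `e (k - 1) = e (k + 1)`, and `(n + 1) N`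
conditions imply that `e m` is at most a part `1 / (2 N + 1)` of the whole energy. An orthonormal
basis adapted to the sequence of these conditions gives the sum.
-/

namespace Pool.Agent.Results.MP_7bc51d_an.ManyComponents

open Complex Set MeasureTheory Pool.Agent.W780.PG Pool.Agent.W780.BB Pool.Agent.TH103.BL
  Run7.h907.BL

open scoped Real

theorem result {n M : ℕ} {p : Fin (n + 3) → ℂ} (hp : IsConvexPolygon p) :
    (∀ f : Fin M → ℂ × ℝ → ℝ, (∀ j, Measurable (f j)) → (∀ j, ∃ C : ℝ, ∀ x, |f j x| ≤ C) →
      (∀ j, IsInvariantFun p (f j)) →
      (∀ i j, ∫ z in region p, posMean (fun x => f i x * f j x) z =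
        if i = j then volume.real (region p) else 0) →
      ∀ m : ℕ, ∫ z in region p, ∑ j, ‖mode m (f j) z‖ ^ 2 ≤
        volume.real (region p) * ∑ s : Fin M, (1 : ℝ) / (2 * (s.val / (n + 1) : ℕ) + 1)) ∧
    (∀ A : Fin M → Set (ℂ × ℝ), (∀ j, MeasurableSet (A j)) → (∀ j, IsInvariant p (A j)) →
      (∀ i j, i ≠ j → Disjoint (A i) (A j)) → (∀ j, 0 < proportion p (A j)) →
      ∫ z in region p, ∑ j, density (A j) z ^ 2 / proportion p (A j) ≤
        volume.real (region p) * ((n + 1) * (1 + Real.log M))) :=
  ⟨fun f hf hb hI ho m => many_modes Pool.Agent.N440.LB.parts hp f hf hb hI ho m,
    fun A hA hI hd hpos => (many_sets Pool.Agent.N440.LB.parts hp A hA hI hd hpos).trans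
      (mul_le_mul_of_nonneg_left (sum_le_log n M) measureReal_nonneg)⟩

end Pool.Agent.Results.MP_7bc51d_an.ManyComponents
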