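import Pool.Agent.Run7.h907.BL.FinB

set_option autoImplicit false

/-!
# Billiards in convex polygons: the position densities of invariant sets

Let `P` be any convex polygon.

* Functions. Let `f` be a bounded measurable function of the state (position, direction) which is
  invariant under the billiard flow. The variance of its mean over the directions, as a function of
  the position, is at most one third of the variance of `f` on the phase space. Equivalently, the
  correlation of an invariant function with a function of the position is at most `1 / √3`.
* Sets. Let `A` be an invariant measurable set, `a` its proportion of the phase space and `A z` the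
  part of the directions at the position `z` which belong to `A`. The mean square of `A z - a` over
  the positions `z` is at most `a (1 - a) / 3`.

Without invariance the best constant is `1` in place of `1 / 3`. Ergodicity would mean that the
variances are zero.

Proof. Let `e m` be the energy of the `m`-th Fourier coefficient of `f` in the direction. The flux
`F z θ` of `f` in the direction `θ` across a path from a fixed point to `z` has a Fourier
coefficient `Φ k z` of number `k` in `θ`; `e (k - 1) - e (k + 1)` is four times the signed area
enclosed by `Φ k` along the boundary of `P`, and by the law of reflection `Φ k` maps each side into
a straight line, of the direction `i exp (i k τ)` for a side with the direction angle `τ`. For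
`k = 1` this is a closed polygon whose sides are parallel to those of `P`, turned by a right angle,
and for `f` of mean zero it is orthogonal to `P` for the area form, so that its area is at most zero
by Minkowski's inequality, proved here by an elementary argument. Hence `e 0 ≤ e 2`, and
`e 0 + 2 e 2` is at most the whole energy by Bessel's inequality.
-/

namespace Pool.Agent.Results.MP_7bc51d_an.PositionDensities

open Complex Set MeasureTheory Pool.Agent.W780.PG Pool.Agent.W780.BB Pool.Agent.TH103.BL
  Run7.h907.BL

open scoped Real

theorem result {n : ℕ} {p : Fin (n + 3) → ℂ} (hp : IsConvexPolygon p) :
    (∀ f : ℂ × ℝ → ℝ, Measurable f → (∃ C : ℝ, ∀ x, |f x| ≤ C) → IsInvariantFun p f →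
      3 * ∫ z in region p, (posMean f z - phaseMean p f) ^ 2 ≤
        ∫ z in region p, posMean (fun x => (f x - phaseMean p f) ^ 2) z) ∧
    (∀ A : Set (ℂ × ℝ), MeasurableSet A → IsInvariant p A →
      3 * ∫ z in region p, (density A z - proportion p A) ^ 2 ≤
        proportion p A * (1 - proportion p A) * volume.real (region p)) :=
  ⟨fun _ hf hb hI => final_funs Pool.Agent.N440.LB.parts hp hf hb hI,
    fun _ hA hI => final_sets Pool.Agent.N440.LB.parts hp hA hI⟩

end Pool.Agent.Results.MP_7bc51d_an.PositionDensities
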