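import Pool.Agent.Run7.h907.BL.FinA

set_option autoImplicit false

/-!
# Billiards in right triangles and related polygons: invariant sets are invariant under the reversal
of the direction

Let `P` be a convex polygon with at most two angles different from a right angle: a right triangle, a
right trapezoid, a quadrilateral with two opposite right angles, or a rectangle one corner of which
has been cut off; the two other angles are arbitrary, in particular they may be irrational multiples
of `π`. Then every invariant function and every invariant set of the billiard flow is, up to a null
set, unchanged if all directions are reversed: almost every state `(z, θ)` belongs to the same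
invariant sets as `(z, θ + π)`. So no set of orbits of positive measure is separated from its
reversal by an invariant set.

Proof. Let `f` be bounded and invariant, and `e m` the energy of its `m`-th Fourier coefficient in the
direction. The difference `e (k - 1) - e (k + 1)` is four times the signed area of a closed polygon
the sides of which have the directions `i exp (i k τ)`, `τ` the direction angles of the sides of `P`.
For even `k` the directions change only at the two exceptional vertices, so the polygon is degenerate
and its area is zero. Hence all odd modes have the same energy, which is zero because the sum of the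
energies is finite.
-/

namespace Pool.Agent.Results.MP_7bc51d_an.TimeReversal

open Complex Set MeasureTheory Pool.Agent.W780.PG Pool.Agent.W780.BB Pool.Agent.TH103.BL
  Run7.h907.BL

open scoped Real

theorem result {n : ℕ} {p : Fin (n + 3) → ℂ} (hp : IsConvexPolygon p) (a b : Fin (n + 3))
    (hab : ∀ i, i ≠ a → i ≠ b → ang p i = π / 2) :
    (∀ f : ℂ × ℝ → ℝ, Measurable f → IsInvariantFun p f →
      ∀ᵐ x : ℂ × ℝ, x.1 ∈ region p → f (x.1, x.2 + π) = f x) ∧
    (∀ A : Set (ℂ × ℝ), MeasurableSet A → IsInvariant p A →
      ∀ᵐ x : ℂ × ℝ, x.1 ∈ region p → ((x.1, x.2 + π) ∈ A ↔ x ∈ A)) :=
  ⟨fun _ hf hI => rev_all Pool.Agent.N440.LB.parts hp hab hf hI,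
    fun _ hA hI => rev_sets Pool.Agent.N440.LB.parts hp hab hA hI⟩

end Pool.Agent.Results.MP_7bc51d_an.TimeReversal
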